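import Pool.Agent.N208.LC.Stm

set_option autoImplicit false

/-!
# Invariants of all degrees of products of general linear groups: statements
-/

open Module

noncomputable section

namespace Pool.Agent.N208.LC

/-- **LC/COREG.** The invariant functions of words are combinations of products of contractions, in
all degrees. -/
def S_COREG : Prop := ∀ (P N k : ℕ) (T ι : Type) [Fintype T] [DecidableEq T] [Fintype ι]
  [DecidableEq ι] (pl : T → Fin P), Fintype.card ι = 2 * k →
  ∀ F : (ι → Ix N T) → ℂ, Inv pl F → F ∈ Submodule.span ℂ (Prs (ι := ι) (N := N) pl k)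

/-- **LC/BRG.** Multilinear forms which are annihilated by the products of the general linear Lie
algebras. -/
def S_BRG : Prop := ∀ (P N k : ℕ) (T ι V : Type) [Fintype T] [DecidableEq T] [Fintype ι]
  [DecidableEq ι] [AddCommGroup V] [Module ℂ V] (pl : T → Fin P) (e : Basis (Ix N T) ℂ V),
  Fintype.card ι = 2 * k →
  ∀ φ : MultilinearMap ℂ (fun _ : ι => V) ℂ,
    (∀ b x, Kil (opX e pl b x) φ) →
    φ ∈ Submodule.span ℂ (PrB ι k {β | IsDelB e pl β})

end Pool.Agent.N208.LC
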