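import Pool.Agent.N208.LC.Main
import Pool.Agent.N208.LC.Stm4

set_option autoImplicit false
set_option linter.unusedSectionVars false

/-!
# The centre, and classes in all degrees
-/

open Module Matrix TensorProduct

noncomputable section

namespace Pool.Agent.N208.LC

open Pool.Agent.Y102 Pool.Agent.W516.DR Pool.Agent.H204R3.GP Pool.Agent.W516.KC
  Pool.Agent.H204R3.SP Pool.Agent.TH119.MX Pool.Agent.R917 Pool.Agent.N208.AM Pool.Agent.N208.AD
  Pool.Agent.N208.BT

/-- Adjoint endomorphisms have the same trace. -/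
theorem trace_adj {V : Type} [AddCommGroup V] [Module ℚ V] [FiniteDimensional ℚ V]
    (ω : V →ₗ[ℚ] V →ₗ[ℚ] ℚ) (hω : ∀ v, (∀ u, ω u v = 0) → v = 0) {X X' : Module.End ℚ V}
    (h : ∀ u v, ω (X u) v = ω u (X' v)) : LinearMap.trace ℚ V X' = LinearMap.trace ℚ V X := by
  have hinj : Function.Injective ω.flip := by
    rw [← LinearMap.ker_eq_bot, LinearMap.ker_eq_bot']
    intro v hv
    refine hω v fun u => ?_
    rw [← LinearMap.flip_apply, hv, LinearMap.zero_apply]
  let e : V ≃ₗ[ℚ] Module.Dual ℚ V := LinearEquiv.ofInjectiveOfFinrankEq ω.flip hinj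
    (Subspace.dual_finrank_eq (K := ℚ) (V := V)).symm
  have he : ∀ v, e v = ω.flip v := fun v => rfl
  have h1 : X' = e.symm.conj (Module.Dual.transpose (R := ℚ) X) := by
    refine LinearMap.ext fun v => ?_
    apply e.injective
    rw [LinearEquiv.conj_apply_apply, LinearEquiv.symm_symm, LinearEquiv.apply_symm_apply]
    refine LinearMap.ext fun u => ?_
    rw [he, he, LinearMap.flip_apply, Module.Dual.transpose_apply, LinearMap.comp_apply,
      LinearMap.flip_apply, h]
  rw [h1, LinearMap.trace_conj', LinearMap.trace_transpose']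

variable {g : ℕ} {A : AbVar g} {z : Module.End ℚ A.H1} {N : ℕ}

/-- The polynomial with `q(-X)`. -/
theorem adj_aeval (hz : ∀ u v, A.om (z u) v = -A.om u (z v)) (q : Polynomial ℚ) :
    ∃ q' : Polynomial ℚ, ∀ u v, A.om (Polynomial.aeval z q u) v =
      A.om u (Polynomial.aeval z q' v) := by
  induction q using Polynomial.induction_on' with
  | add p q hp hq =>
    obtain ⟨p', hp⟩ := hp
    obtain ⟨q', hq⟩ := hq
    refine ⟨p' + q', fun u v => ?_⟩
    simp only [map_add, LinearMap.add_apply, hp, hq]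
  | monomial n a =>
    refine ⟨Polynomial.C (a * (-1) ^ n) * Polynomial.X ^ n, fun u v => ?_⟩
    rw [Polynomial.aeval_monomial, map_mul, Polynomial.aeval_C, map_pow, Polynomial.aeval_X]
    have h1 : ∀ (n : ℕ) u v, A.om ((z ^ n) u) v = (-1) ^ n * A.om u ((z ^ n) v) := by
      intro n
      induction n with
      | zero => intro u v; simp
      | succ n ih =>
        intro u v
        have h2 : (z ^ (n + 1)) v = z ((z ^ n) v) := by
          rw [pow_succ', Module.End.mul_apply]
        have h3 : (z ^ (n + 1)) u = (z ^ n) (z u) := by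
          rw [pow_succ, Module.End.mul_apply]
        rw [h2, h3, ih, hz]
        have h4 : z ((z ^ n) v) = (z ^ n) (z v) := by
          rw [← Module.End.mul_apply, ← Module.End.mul_apply, ← pow_succ, ← pow_succ']
        rw [h4, pow_succ]
        ring
    simp only [Module.algebraMap_end_eq_smul_id, Module.End.mul_apply, LinearMap.smul_apply,
      LinearMap.id_apply, map_smul, smul_eq_mul, h1]
    ring

/-- Representation of functionals by the trace form. -/
theorem exists_repr {V : Type} [AddCommGroup V] [Module ℚ V] [FiniteDimensional ℚ V]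
    [Nontrivial V] (F : Submodule ℚ (Module.End ℚ V))
    (hF : ∀ a ∈ F, a ≠ 0 → ∃ b ∈ F, a * b = 1) (T : Module.End ℚ V) :
    ∃ c ∈ F, ∀ b ∈ F, LinearMap.trace ℚ V (c * b) = LinearMap.trace ℚ V (T * b) := by
  classical
  let τ₀ : Module.End ℚ V →ₗ[ℚ] Module.End ℚ V →ₗ[ℚ] ℚ :=
    LinearMap.mk₂ ℚ (fun a b => LinearMap.trace ℚ V (a * b))
      (fun a a' b => by rw [add_mul, map_add])
      (fun c a b => by rw [smul_mul_assoc, map_smul])
      (fun a b b' => by rw [mul_add, map_add])
      (fun c a b => by rw [mul_smul_comm, map_smul])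
  let τ : F →ₗ[ℚ] Module.Dual ℚ F := (F.subtype.dualMap.comp τ₀).comp F.subtype
  have hτ : ∀ a b : F, τ a b = LinearMap.trace ℚ V ((a : Module.End ℚ V) * b) := fun a b => rfl
  have hinj : Function.Injective τ := by
    refine (injective_iff_map_eq_zero τ).2 fun a ha => ?_
    by_contra h0
    obtain ⟨b, hb, hab⟩ := hF a a.2 fun h => h0 (Subtype.ext h)
    have h3 := hτ a ⟨b, hb⟩
    rw [ha, LinearMap.zero_apply] at h3
    have h4 : (0 : ℚ) = LinearMap.trace ℚ V ((a : Module.End ℚ V) * b) := h3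
    rw [hab, LinearMap.trace_one] at h4
    exact (Nat.cast_ne_zero.2 (Module.finrank_pos (R := ℚ) (M := V)).ne') h4.symm
  have hsurj : Function.Surjective τ := by
    have h1 : finrank ℚ F = finrank ℚ (Module.Dual ℚ F) :=
      (Subspace.dual_finrank_eq (K := ℚ) (V := F)).symm
    exact (LinearMap.injective_iff_surjective_of_finrank_eq_finrank h1).1 hinj
  obtain ⟨c, hc⟩ := hsurj (F.subtype.dualMap (τ₀ T))
  exact ⟨c, c.2, fun b hb => LinearMap.congr_fun hc ⟨b, hb⟩⟩

theorem comm_aeval' {V : Type} [AddCommGroup V] [Module ℚ V] {z T : Module.End ℚ V}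
    (h : T * z = z * T) (p : Polynomial ℚ) :
    T * Polynomial.aeval z p = Polynomial.aeval z p * T := by
  induction p using Polynomial.induction_on' with
  | add p q hp hq => rw [map_add, mul_add, add_mul, hp, hq]
  | monomial n a =>
    have h2 : T * z ^ n = z ^ n * T := (Commute.pow_right (show Commute T z from h) n).eq
    rw [Polynomial.aeval_monomial, ← Algebra.smul_def, mul_smul_comm, smul_mul_assoc, h2]

theorem inv_of_field {V : Type} [AddCommGroup V] [Module ℚ V] [FiniteDimensional ℚ V]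
    (z : Module.End ℚ V) (h : ∀ q : Polynomial ℚ, Polynomial.aeval z q ≠ 0 →
      Function.Injective (Polynomial.aeval z q)) :
    ∀ a ∈ (Algebra.adjoin ℚ {z}).toSubmodule, a ≠ 0 →
      ∃ b ∈ (Algebra.adjoin ℚ {z}).toSubmodule, a * b = 1 := by
  intro a ha h0
  have ha' : a ∈ Algebra.adjoin ℚ {z} := ha
  have h1 : Function.Injective a := by
    rw [Algebra.adjoin_singleton_eq_range_aeval] at ha'
    obtain ⟨q, hq⟩ := ha'
    have hq' : Polynomial.aeval z q = a := hq
    rw [← hq']
    exact h q (by rw [hq']; exact h0)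
  have hst : ∀ b ∈ (Algebra.adjoin ℚ {z}).toSubmodule,
      LinearMap.mulLeft ℚ a b ∈ (Algebra.adjoin ℚ {z}).toSubmodule := by
    intro b hb
    exact (Algebra.adjoin ℚ {z}).mul_mem ha' hb
  let m : (Algebra.adjoin ℚ {z}).toSubmodule →ₗ[ℚ] (Algebra.adjoin ℚ {z}).toSubmodule :=
    (LinearMap.mulLeft ℚ a).restrict hst
  have hm : Function.Injective m := by
    intro b b' hb
    have h3 : a * (b : Module.End ℚ V) = a * b' := congrArg Subtype.val hb
    refine Subtype.ext (LinearMap.ext fun v => h1 ?_)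
    rw [← Module.End.mul_apply, h3, Module.End.mul_apply]
  obtain ⟨b, hb⟩ := (LinearMap.injective_iff_surjective.1 hm)
    ⟨1, (Algebra.adjoin ℚ {z}).one_mem⟩
  exact ⟨b, b.2, congrArg Subtype.val hb⟩

/-- The decomposition of the unitary Lie algebra into the special unitary Lie algebra and the
centre. -/
theorem skew_split (hF : HF A z N) {T : Module.End ℚ A.H1} (hT : T ∈ CB A)
    (hTs : ∀ u v, A.om (T u) v + A.om u (T v) = 0) :
    ∃ q : Polynomial ℚ, (∀ u v, A.om (Polynomial.aeval z q u) v +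
      A.om u (Polynomial.aeval z q v) = 0) ∧ T - Polynomial.aeval z q ∈ UU A z := by
  classical
  obtain ⟨F, hFd⟩ : ∃ F : Submodule ℚ (Module.End ℚ A.H1),
      F = (Algebra.adjoin ℚ {z}).toSubmodule := ⟨_, rfl⟩
  have hFm : ∀ a, a ∈ F ↔ ∃ q : Polynomial ℚ, a = Polynomial.aeval z q := by
    intro a
    rw [hFd, Subalgebra.mem_toSubmodule, Algebra.adjoin_singleton_eq_range_aeval]
    exact ⟨fun ⟨q, hq⟩ => ⟨q, hq.symm⟩, fun ⟨q, hq⟩ => ⟨q, hq.symm⟩⟩
  have hzs : ∀ u v, A.om (z u) v = -A.om u (z v) :=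
    fun u v => eq_neg_of_add_eq_zero_left (hF.skew u v)
  have hnd : ∀ v, (∀ u, A.om u v = 0) → v = 0 := by
    intro v hv
    refine A.om_nondeg fun u => ?_
    rw [A.om_anti, hv, neg_zero]
  have hne : Nontrivial A.H1 := by
    by_contra hcon
    rw [not_nontrivial_iff_subsingleton] at hcon
    exact hF.ne (LinearMap.ext fun v => Subsingleton.elim _ _)
  have hFi : ∀ a ∈ F, a ≠ 0 → ∃ b ∈ F, a * b = 1 := by
    rw [hFd]
    exact inv_of_field z hF.field
  obtain ⟨c, hcF, hc'⟩ := exists_repr F hFi T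
  obtain ⟨q, hq⟩ := (hFm c).1 hcF
  obtain ⟨q', hq'⟩ := adj_aeval (A := A) hzs q
  have hTz : T * z = z * T := hT z hF.mem
  have hTp := comm_aeval' hTz
  have hpp : ∀ p p' : Polynomial ℚ, (Polynomial.aeval z p : Module.End ℚ A.H1) *
      Polynomial.aeval z p' = Polynomial.aeval z p' * Polynomial.aeval z p := by
    intro p p'
    rw [← map_mul, ← map_mul]
    exact congrArg _ (mul_comm p p')
  -- `c` is skew
  have hskew : Polynomial.aeval z q' = -Polynomial.aeval z q := by
    have h1 : ∀ b ∈ F, LinearMap.trace ℚ A.H1 ((Polynomial.aeval z q' + c) * b) = 0 := by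
      intro b hb
      obtain ⟨p, hp⟩ := (hFm b).1 hb
      obtain ⟨p', hp'⟩ := adj_aeval (A := A) hzs p
      have e1 : LinearMap.trace ℚ A.H1 (Polynomial.aeval z q' * b) =
          LinearMap.trace ℚ A.H1 (Polynomial.aeval z p' * Polynomial.aeval z q) := by
        have h5 : ∀ u v, A.om ((Polynomial.aeval z p' * Polynomial.aeval z q) u) v =
            A.om u ((Polynomial.aeval z q' * b) v) := by
          intro u v
          have h6 : ∀ u v, A.om (Polynomial.aeval z p' u) v = A.om u (Polynomial.aeval z p v) := by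
            intro u v
            rw [A.om_anti, ← hp', A.om_anti, neg_neg]
          rw [Module.End.mul_apply, h6, hq', hp, Module.End.mul_apply]
        exact trace_adj A.om hnd h5
      have e2 : LinearMap.trace ℚ A.H1 (T * Polynomial.aeval z p) =
          -LinearMap.trace ℚ A.H1 (T * Polynomial.aeval z p') := by
        have h5 : ∀ u v, A.om ((T * Polynomial.aeval z p) u) v =
            A.om u ((-(T * Polynomial.aeval z p')) v) := by
          intro u v
          rw [Module.End.mul_apply, LinearMap.neg_apply, map_neg, hTp p', Module.End.mul_apply]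
          rw [eq_neg_of_add_eq_zero_left (hTs _ _), hp']
        have h7 := trace_adj A.om hnd h5
        rw [← h7, map_neg]
      rw [add_mul, map_add, e1, hc' b hb, hp, e2]
      have e3 := hc' (Polynomial.aeval z p') ((hFm _).2 ⟨p', rfl⟩)
      rw [← e3, hq, hpp p' q, add_neg_cancel]
    by_contra hne'
    have h2 : Polynomial.aeval z q' + c ≠ 0 := by
      intro h
      apply hne'
      rw [← hq]
      exact eq_neg_of_add_eq_zero_left h
    have h3 : Polynomial.aeval z q' + c ∈ F := F.add_mem ((hFm _).2 ⟨q', rfl⟩) hcF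
    obtain ⟨b, hb, hab⟩ := hFi _ h3 h2
    have h4 := h1 b hb
    rw [hab, LinearMap.trace_one] at h4
    exact (Nat.cast_ne_zero.2 (Module.finrank_pos (R := ℚ) (M := A.H1)).ne') h4
  have hqs : ∀ u v, A.om (Polynomial.aeval z q u) v + A.om u (Polynomial.aeval z q v) = 0 := by
    intro u v
    rw [hq', hskew, LinearMap.neg_apply, map_neg, neg_add_cancel]
  refine ⟨q, hqs, ?_, fun u v => ?_, fun p => ?_⟩
  · refine (CB A).sub_mem hT fun P hP => ?_
    exact (comm_aeval' (hF.cen P hP).symm q).symm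
  · have e1 := hTs u v
    have e2 := hqs u v
    simp only [LinearMap.sub_apply, map_sub]
    linear_combination e1 - e2
  · have e1 := hc' (Polynomial.aeval z p) ((hFm _).2 ⟨p, rfl⟩)
    rw [hq] at e1
    rw [sub_mul, map_sub, sub_eq_zero]
    exact e1.symm

/-! ### A factor of a larger abelian variety -/

/-- `A₁` is a factor of `A`, up to isogeny: `π` is a homomorphism, with a section `ι`. -/
structure Fac {g₁ g : ℕ} (A₁ : AbVar g₁) (A : AbVar g) (ι : A₁.H1 →ₗ[ℚ] A.H1)
    (π : A.H1 →ₗ[ℚ] A₁.H1) : Prop where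
  ret : ∀ v, π (ι v) = v
  mor : ∃ a : Fin g₁ ⊕ Fin g₁ → Fin g ⊕ Fin g → QBar, ∀ i w, A₁.dR i (π w) =
    ∑ j, algebraMap QBar ℂ (a i j) * A.dR j w

theorem drb_pull {g₁ g : ℕ} {A₁ : AbVar g₁} {A : AbVar g} {π : A.H1 →ₗ[ℚ] A₁.H1}
    (h : ∃ a : Fin g₁ ⊕ Fin g₁ → Fin g ⊕ Fin g → QBar, ∀ i w, A₁.dR i (π w) =
      ∑ j, algebraMap QBar ℂ (a i j) * A.dR j w) {m : ℕ}
    {φ : MultilinearMap ℚ (fun _ : Fin m × Fin 2 => A₁.H1) ℚ}
    (hφ : IsDeRhamBettiForm QBar A₁.dR tau m φ) :
    IsDeRhamBettiForm QBar A.dR tau m (φ.compLinearMap fun _ => π) := by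
  classical
  obtain ⟨c, hc⟩ := h
  obtain ⟨a, ha⟩ := hφ
  refine ⟨fun K => ∑ J, a J * ∏ l, c (J l) (K l), fun v => ?_⟩
  have h1 := ha fun l => π (v l)
  rw [show (φ.compLinearMap fun _ => π) v = φ fun l => π (v l) from rfl, h1]
  have h2 : ∀ J : Fin m × Fin 2 → Fin g₁ ⊕ Fin g₁, ∏ l, A₁.dR (J l) (π (v l)) =
      ∑ K : Fin m × Fin 2 → Fin g ⊕ Fin g,
        (∏ l, algebraMap QBar ℂ (c (J l) (K l))) * ∏ l, A.dR (K l) (v l) := by
    intro J
    simp only [hc]
    rw [Finset.prod_univ_sum, Fintype.piFinset_univ]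
    refine Finset.sum_congr rfl fun K _ => ?_
    rw [Finset.prod_mul_distrib]
  simp only [h2, Finset.mul_sum]
  rw [Finset.sum_comm]
  refine Finset.sum_congr rfl fun K _ => ?_
  rw [map_sum, Finset.sum_mul]
  refine Finset.sum_congr rfl fun J _ => ?_
  rw [map_mul, map_prod]
  ring

/-- The endomorphisms which are given by elements of the Lie algebra of the larger abelian variety
annihilate the de Rham-Betti classes. -/
theorem mem_LA_of_fac {g₁ g : ℕ} {A₁ : AbVar g₁} {A : AbVar g} {ι : A₁.H1 →ₗ[ℚ] A.H1}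
    {π : A.H1 →ₗ[ℚ] A₁.H1} (h : Fac A₁ A ι π) {X : Module.End ℚ A.H1} (hX : X ∈ A.LA)
    {x : Module.End ℚ A₁.H1} (hx : ∀ v, π (X (ι v)) = x v) : x ∈ A₁.LA := by
  intro m φ hφ v
  have h1 := hX m _ (drb_pull h.mor hφ) fun k => ι (v k)
  rw [← h1]
  refine Finset.sum_congr rfl fun k _ => ?_
  rw [MultilinearMap.compLinearMap_apply]
  congr 1
  funext l
  by_cases hl : l = k
  · subst hl
    rw [Function.update_self, Function.update_self, hx]
  · rw [Function.update_of_ne hl, Function.update_of_ne hl, h.ret]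

/-- The Lie algebra of the unitary group annihilates all de Rham-Betti classes. -/
theorem skew_le (hU : S_U) {Sg : Finset ℝ} (hL : HL A z Sg) (hF : HF A z N)
    (hc : ∀ q : Polynomial ℚ, (∀ u v, A.om (Polynomial.aeval z q u) v +
      A.om u (Polynomial.aeval z q v) = 0) → Polynomial.aeval z q ∈ A.LA)
    {T : Module.End ℚ A.H1} (hT : T ∈ CB A) (hTs : ∀ u v, A.om (T u) v + A.om u (T v) = 0) :
    T ∈ A.LA := by
  obtain ⟨q, h1, h2⟩ := skew_split hF hT hTs
  have h3 := A.full_LA.der_le (hU g A z Sg hL A.LA A.full_LA h2)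
  have h4 := A.LA.add_mem h3 (hc q h1)
  rwa [sub_add_cancel] at h4

/-- **Main theorem**, all degrees. -/
theorem main_all (hADB : S_ADB) (hBRG : S_BRG) (hU : S_U) (hAP1 : S_AP1)
    {Sg : Finset ℝ} {m : ℕ} (hL : HL A z Sg) (hF : HF A z N)
    (hc : ∀ q : Polynomial ℚ, (∀ u v, A.om (Polynomial.aeval z q u) v +
      A.om u (Polynomial.aeval z q v) = 0) → Polynomial.aeval z q ∈ A.LA)
    {φ : MultilinearMap ℚ (fun _ : Fin m × Fin 2 => A.H1) ℚ}
    (hφ : IsDeRhamBettiForm QBar A.dR tau m φ) :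
    φ ∈ Submodule.span ℚ (PrB (Fin m × Fin 2) m (QE A : Set (A.H1 →ₗ[ℚ] A.H1 →ₗ[ℚ] ℚ))) := by
  obtain ⟨P, T, iT, iT', pl, e, h1, h2⟩ := hADB (ℂ ⊗[ℚ] A.H1) _ _ _ _ _ (hAP1 g A z N hF)
  have hkill : ∀ X ∈ cx (CB A), (∀ u v, LinearMap.BilinForm.baseChange ℂ A.om (X u) v +
      LinearMap.BilinForm.baseChange ℂ A.om u (X v) = 0) → Kil X (bcm (Ω := ℂ) A.bas φ) := by
    intro X hX hs
    have h3 := (kills_bcm_iff (b := A.bas) φ X).2 fun lam => by
      have h4 := cmp_of_ext (CB A) hX lam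
      refine A.kills_of_mem hφ (skew_le hU hL hF hc h4 fun u v => ?_)
      have h5 : ∀ (Y : ℂ ⊗[ℚ] A.H1) (v : A.H1),
          lam (LinearMap.BilinForm.baseChange ℂ A.om Y (1 ⊗ₜ[ℚ] v)) = A.om (cmp lam Y) v := by
        intro Y v
        induction Y using TensorProduct.induction_on with
        | zero => simp
        | add a b ha hb => simp only [map_add, LinearMap.add_apply, ha, hb]
        | tmul a w =>
          rw [LinearMap.BilinForm.baseChange_tmul, cmp_tmul, mul_one, map_smul, map_smul,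
            LinearMap.smul_apply, smul_eq_mul, smul_eq_mul, mul_comm]
      have h6 : ∀ (Y : ℂ ⊗[ℚ] A.H1) (u : A.H1),
          lam (LinearMap.BilinForm.baseChange ℂ A.om (1 ⊗ₜ[ℚ] u) Y) = A.om u (cmp lam Y) := by
        intro Y u
        induction Y using TensorProduct.induction_on with
        | zero => simp
        | add a b ha hb => simp only [map_add, ha, hb]
        | tmul a w =>
          rw [LinearMap.BilinForm.baseChange_tmul, cmp_tmul, one_mul, map_smul, map_smul,
            smul_eq_mul, smul_eq_mul, mul_comm]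
      rw [cmpE_apply, cmpE_apply, ← h5, ← h6, ← map_add, hs, map_zero]
    exact h3
  have h3 := hBRG P N m T
    (Fin m × Fin 2) (ℂ ⊗[ℚ] A.H1) pl e (by simp [mul_comm]) (bcm (Ω := ℂ) A.bas φ)
    (fun b x => hkill _ (h1 b x).1 (h1 b x).2.1)
  refine Pool.Agent.N441.LCDESC.main A.H1 _ A.bas (Fin m × Fin 2) m (QE A) φ
    (Submodule.span_mono ?_ h3)
  rintro ψ ⟨ε, c, hc, hψ⟩
  refine ⟨ε, c, fun i => ?_, hψ⟩
  obtain ⟨Q, hQ, hQ'⟩ := h2 _ (hc i)
  exact mem_QE hQ _ hQ'

end Pool.Agent.N208.LC
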