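import Pool.Agent.N208.BT.PDiv
import Pool.Agent.N208.BT.All

set_option autoImplicit false

/-!
# Signature `(1, n)`: the hypothesis `HG`
-/

open Module Matrix

noncomputable section

namespace Pool.Agent.N208.LC

open Pool.Agent.Y102 Pool.Agent.W516.DR Pool.Agent.H204R3.GP Pool.Agent.W516.KC
  Pool.Agent.H204R3.SP Pool.Agent.TH119.MX Pool.Agent.R917 Pool.Agent.N208.AM Pool.Agent.N208.AD
  Pool.Agent.N208.BT

/-- **LC/HBG.** Signature `(1, n)`, `n ≥ 1`: all full subalgebras contain the long roots. -/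
def S_HBG : Prop := ∀ (g : ℕ) (A : AbVar g) (z : Module.End ℚ A.H1) (Sg : Finset ℝ), HB A z Sg →
  (∀ al ∈ Sg, ∃ x, x ≠ 0 ∧ Eig A z (-al) x) → HG A z Sg

end Pool.Agent.N208.LC
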