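import Pool.Agent.N208.LC.Pow
import Pool.Agent.N208.LC.Cen
import Pool.Agent.N208.LC.Stm3
import Pool.Agent.N803.LCADB
import Pool.Agent.N966.LCCPT
import Pool.Agent.N383.LCU
import Pool.Agent.N492.LCAP1
import Pool.Agent.N738.LCAP2
import Pool.Agent.N521.LCHBG
import Pool.Agent.N160.LCBRG

set_option autoImplicit false
set_option linter.unusedSectionVars false

/-!
# de Rham-Betti classes on abelian varieties of unitary type: assembly
-/

open Module Matrix TensorProduct

noncomputable section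

namespace Pool.Agent.N208.LC

open Pool.Agent.Y102 Pool.Agent.W516.DR Pool.Agent.H204R3.GP Pool.Agent.W516.KC
  Pool.Agent.H204R3.SP Pool.Agent.TH119.MX Pool.Agent.R917 Pool.Agent.N208.AM Pool.Agent.N208.AD
  Pool.Agent.N208.BT

variable {g : ℕ} {A : AbVar g} {z : Module.End ℚ A.H1} {N m : ℕ} {Sg : Finset ℝ}

/-- The products of forms given by endomorphisms are products of Hodge classes of degree two. -/
theorem prB_hodge {ψ : MultilinearMap ℚ (fun _ : Fin m × Fin 2 => A.H1) ℚ}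
    (h : ψ ∈ PrB (Fin m × Fin 2) m (QE A : Set (A.H1 →ₗ[ℚ] A.H1 →ₗ[ℚ] ℚ))) :
    IsProductOfHodgeBilinear (A.per : A.H1 →+ (Fin g → ℂ)) ψ := by
  obtain ⟨ε, c, hc, h⟩ := h
  refine ⟨ε, c, fun l => ?_, h⟩
  obtain ⟨Q, hQ, hcQ⟩ := hc l
  obtain ⟨P', hP'⟩ := A.endAlg.hodge Q hQ
  refine ⟨A.E.compl₂ (P'.restrictScalars ℝ), fun x y => ?_, fun z hz u v => ?_⟩
  · have h1 : P' (A.per y) = A.per (Q y) := hP' y
    rw [LinearMap.compl₂_apply, LinearMap.restrictScalars_apply]
    change A.E (A.per x) (P' (A.per y)) = _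
    rw [h1, ← AbVar.om_coe, hcQ]
  · rw [LinearMap.compl₂_apply, LinearMap.compl₂_apply, LinearMap.restrictScalars_apply,
      LinearMap.restrictScalars_apply, P'.map_smul, A.E_unit z hz]

theorem su_main : S_U := N383.LCU.main N966.LCCPT.main

/-- **de Rham-Betti classes of low degree.** -/
theorem fin_low (hL : HL A z Sg) (hF : HF A z N) (hm : 2 * m < N ∨ (Odd N ∧ m < N))
    {φ : MultilinearMap ℚ (fun _ : Fin m × Fin 2 => A.H1) ℚ}
    (hφ : IsDeRhamBettiForm QBar A.dR tau m φ) :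
    φ ∈ Submodule.span ℚ {ψ | IsProductOfHodgeBilinear (A.per : A.H1 →+ (Fin g → ℂ)) ψ} :=
  Submodule.span_mono (fun _ h => prB_hodge h)
    (main_LC N803.LCADB.main su_main N492.LCAP1.main N738.LCAP2.main hL hF hm hφ)

/-- **de Rham-Betti classes of all degrees**, if the centre annihilates them. -/
theorem fin_all (hCO : S_COREG) (hL : HL A z Sg) (hF : HF A z N)
    (hc : ∀ q : Polynomial ℚ, (∀ u v, A.om (Polynomial.aeval z q u) v +
      A.om u (Polynomial.aeval z q v) = 0) → Polynomial.aeval z q ∈ A.LA)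
    {φ : MultilinearMap ℚ (fun _ : Fin m × Fin 2 => A.H1) ℚ}
    (hφ : IsDeRhamBettiForm QBar A.dR tau m φ) :
    φ ∈ Submodule.span ℚ {ψ | IsProductOfHodgeBilinear (A.per : A.H1 →+ (Fin g → ℂ)) ψ} :=
  Submodule.span_mono (fun _ h => prB_hodge h)
    (main_all N803.LCADB.main (N160.LCBRG.main hCO) su_main N492.LCAP1.main hL hF hc hφ)

end Pool.Agent.N208.LC
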