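import Mathlib

set_option autoImplicit false

/-!
# Invariants of low degree of products of special linear groups: statements
-/

open Module

noncomputable section

namespace Pool.Agent.N208.LC

/-- Indices: the sign (vectors or covectors), the position, the type. -/
abbrev Ix (N : ℕ) (T : Type) : Type := Bool × Fin N × T

variable {P N : ℕ} {T ι : Type} [DecidableEq T] [Fintype ι] [DecidableEq ι]

/-- The weight of a word for the place `b` and the position `p`. -/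
def wt (pl : T → Fin P) (I : ι → Ix N T) (b : Fin P) (p : Fin N) : ℤ :=
  ((Finset.univ.filter fun k => (I k).1 = true ∧ (I k).2.1 = p ∧ pl (I k).2.2 = b).card : ℤ) -
    ((Finset.univ.filter fun k => (I k).1 = false ∧ (I k).2.1 = p ∧ pl (I k).2.2 = b).card : ℤ)

/-- **LC/BAL.** Balanced words. -/
def S_BAL : Prop := ∀ (P N k : ℕ) (T ι : Type) [DecidableEq T] [Fintype ι] [DecidableEq ι]
  (pl : T → Fin P), Fintype.card ι = 2 * k → (2 * k < N ∨ (Odd N ∧ k < N)) →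
  ∀ I : ι → Ix N T, (∀ b p q, wt pl I b p = wt pl I b q) → ∀ b p, wt pl I b p = 0

/-- Functions of words which are invariant under the operators `E_pq` of all places. -/
structure Inv (pl : T → Fin P) (F : (ι → Ix N T) → ℂ) : Prop where
  bal : ∀ I, F I ≠ 0 → ∀ b p, wt pl I b p = 0
  mov : ∀ (b : Fin P) (p q : Fin N), p ≠ q → ∀ I,
    ∑ k ∈ Finset.univ.filter (fun k => (I k).1 = true ∧ (I k).2.1 = p ∧ pl (I k).2.2 = b),
        F (Function.update I k (true, q, (I k).2.2)) =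
      ∑ k ∈ Finset.univ.filter (fun k => (I k).1 = false ∧ (I k).2.1 = q ∧ pl (I k).2.2 = b),
        F (Function.update I k (false, p, (I k).2.2))

/-- The contractions. -/
def IsDel (pl : T → Fin P) (δ : Ix N T → Ix N T → ℂ) : Prop :=
  ∃ (s : Bool) (t t' : T), pl t = pl t' ∧ ∀ x y, δ x y =
    if x.1 = s ∧ y.1 = (!s) ∧ x.2.2 = t ∧ y.2.2 = t' ∧ x.2.1 = y.2.1 then 1 else 0

/-- The products of contractions. -/
def Prs (pl : T → Fin P) (k : ℕ) : Set ((ι → Ix N T) → ℂ) :=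
  {G | ∃ (e : Fin k × Fin 2 ≃ ι) (d : Fin k → Ix N T → Ix N T → ℂ), (∀ i, IsDel pl (d i)) ∧
    ∀ I, G I = ∏ i, d i (I (e (i, 0))) (I (e (i, 1)))}

/-- **LC/CORE.** The invariant functions of words are combinations of products of contractions. -/
def S_CORE : Prop := ∀ (P N k : ℕ) (T ι : Type) [Fintype T] [DecidableEq T] [Fintype ι]
  [DecidableEq ι] (pl : T → Fin P), Fintype.card ι = 2 * k → k < N →
  ∀ F : (ι → Ix N T) → ℂ, Inv pl F → F ∈ Submodule.span ℂ (Prs (ι := ι) (N := N) pl k)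

/-! ### Multilinear forms -/

/-- `X` annihilates the multilinear form `φ`. -/
def Kil {K V : Type} [Field K] [AddCommGroup V] [Module K V] (X : Module.End K V)
    (φ : MultilinearMap K (fun _ : ι => V) K) : Prop :=
  ∀ v : ι → V, ∑ k, φ (Function.update v k (X (v k))) = 0

variable {V : Type} [AddCommGroup V] [Module ℂ V]

/-- The operator of the place `b` given by the matrix `x`: it acts by `x` on the vectors and by `- xᵀ`
on the covectors. -/
def opX [Fintype T] (e : Basis (Ix N T) ℂ V) (pl : T → Fin P) (b : Fin P)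
    (x : Matrix (Fin N) (Fin N) ℂ) : Module.End ℂ V :=
  e.constr ℂ fun i => if pl i.2.2 = b then
    (if i.1 then ∑ p, x p i.2.1 • e (true, p, i.2.2) else -∑ q, x i.2.1 q • e (false, q, i.2.2))
    else 0

/-- The contractions, as bilinear forms. -/
def IsDelB (e : Basis (Ix N T) ℂ V) (pl : T → Fin P) (β : V →ₗ[ℂ] V →ₗ[ℂ] ℂ) : Prop :=
  ∃ (s : Bool) (t t' : T), pl t = pl t' ∧ ∀ x y : Ix N T, β (e x) (e y) =
    if x.1 = s ∧ y.1 = (!s) ∧ x.2.2 = t ∧ y.2.2 = t' ∧ x.2.1 = y.2.1 then 1 else 0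

/-- The products of bilinear forms from the set `Q`, for the pairings of the variables. -/
def PrB {K V : Type} [Field K] [AddCommGroup V] [Module K V] (ι : Type) (k : ℕ)
    (Q : Set (V →ₗ[K] V →ₗ[K] K)) : Set (MultilinearMap K (fun _ : ι => V) K) :=
  {ψ | ∃ (ε : Fin k × Fin 2 ≃ ι) (c : Fin k → V →ₗ[K] V →ₗ[K] K), (∀ i, c i ∈ Q) ∧
    ∀ v, ψ v = ∏ i, c i (v (ε (i, 0))) (v (ε (i, 1)))}

/-- **LC/BR.** Invariant multilinear forms of low degree. -/
def S_BR : Prop := ∀ (P N k : ℕ) (T ι V : Type) [Fintype T] [DecidableEq T] [Fintype ι]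
  [DecidableEq ι] [AddCommGroup V] [Module ℂ V] (pl : T → Fin P) (e : Basis (Ix N T) ℂ V),
  Fintype.card ι = 2 * k → (2 * k < N ∨ (Odd N ∧ k < N)) →
  ∀ φ : MultilinearMap ℂ (fun _ : ι => V) ℂ,
    (∀ b x, x.trace = 0 → Kil (opX e pl b x) φ) →
    φ ∈ Submodule.span ℂ (PrB ι k {β | IsDelB e pl β})

/-! ### The adapted basis -/

/-- Two algebras of operators on a symplectic space which are the commutants of each other; the centre
is generated by a diagonalizable skew operator `z`. -/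
structure Alg2 (V : Type) [AddCommGroup V] [Module ℂ V] (ω : V →ₗ[ℂ] V →ₗ[ℂ] ℂ)
    (E B : Submodule ℂ (Module.End ℂ V)) (z : Module.End ℂ V) (N : ℕ) : Prop where
  commB : ∀ X, X ∈ B ↔ ∀ Q ∈ E, X * Q = Q * X
  commE : ∀ Q, Q ∈ E ↔ ∀ X ∈ B, X * Q = Q * X
  semi : ∀ U : Submodule ℂ V, (∀ X ∈ B, ∀ u ∈ U, X u ∈ U) →
    ∃ U' : Submodule ℂ V, (∀ X ∈ B, ∀ u ∈ U', X u ∈ U') ∧ IsCompl U U'
  alt : ∀ u v, ω u v = -ω v u
  nondeg : ∀ u, (∀ v, ω u v = 0) → u = 0
  adjB : ∀ X ∈ B, ∃ X' ∈ B, ∀ u v, ω (X u) v = ω u (X' v)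
  skew : ∀ u v, ω (z u) v = -ω u (z v)
  zE : z ∈ E
  zB : z ∈ B
  inj : Function.Injective z
  diag : ⨆ σ : ℂ, Module.End.eigenspace z σ = ⊤
  cen : ∀ Q ∈ E, Q ∈ B → ∃ q : Polynomial ℂ, Q = Polynomial.aeval z q
  dim : ∀ σ : ℂ, (∃ v, v ≠ 0 ∧ z v = σ • v) →
    finrank ℂ (B ⊓ LinearMap.ker (LinearMap.mulRight ℂ (z - σ • (1 : Module.End ℂ V)))
      : Submodule ℂ (Module.End ℂ V)) = N ^ 2

/-- **LC/ADB.** The adapted basis. -/
def S_ADB : Prop := ∀ (V : Type) [AddCommGroup V] [Module ℂ V] [FiniteDimensional ℂ V]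
  (ω : V →ₗ[ℂ] V →ₗ[ℂ] ℂ) (E B : Submodule ℂ (Module.End ℂ V)) (z : Module.End ℂ V) (N : ℕ),
  Alg2 V ω E B z N → ∃ (P : ℕ) (T : Type) (_ : Fintype T) (_ : DecidableEq T) (pl : T → Fin P)
    (e : Basis (Ix N T) ℂ V),
    (∀ b x, opX e pl b x ∈ B ∧ (∀ u v, ω (opX e pl b x u) v + ω u (opX e pl b x v) = 0) ∧
      (x.trace = 0 → ∀ q : Polynomial ℂ,
        LinearMap.trace ℂ V (opX e pl b x * Polynomial.aeval z q) = 0)) ∧
    ∀ β, IsDelB e pl β → ∃ Q ∈ E, ∀ u v, β u v = ω u (Q v)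

end Pool.Agent.N208.LC
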