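import Pool.Agent.N208.LC.Stm2
import Pool.Agent.N75.LCBR
import Pool.Agent.N441.LCDESC
import Pool.Agent.N530.LCCORE
import Pool.Agent.N692.LCBAL

set_option autoImplicit false
set_option linter.unusedSectionVars false

/-!
# de Rham-Betti classes of low degree on abelian varieties of unitary type
-/

open Module Matrix TensorProduct

noncomputable section

namespace Pool.Agent.N208.LC

open Pool.Agent.Y102 Pool.Agent.W516.DR Pool.Agent.H204R3.GP Pool.Agent.W516.KC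
  Pool.Agent.H204R3.SP Pool.Agent.TH119.MX Pool.Agent.R917 Pool.Agent.N208.AM Pool.Agent.N208.AD
  Pool.Agent.N208.BT

variable {g : ℕ} (A : AbVar g)

/-- The bilinear forms given by endomorphisms. -/
def QE : Submodule ℚ (A.H1 →ₗ[ℚ] A.H1 →ₗ[ℚ] ℚ) where
  carrier := {γ | ∃ Q ∈ A.EA, ∀ u v, γ u v = A.om u (Q v)}
  zero_mem' := ⟨0, A.EA.zero_mem, fun u v => by simp⟩
  add_mem' := by
    rintro γ γ' ⟨Q, hQ, h⟩ ⟨Q', hQ', h'⟩
    exact ⟨Q + Q', A.EA.add_mem hQ hQ', fun u v => by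
      simp only [LinearMap.add_apply, map_add, h, h']⟩
  smul_mem' := by
    rintro c γ ⟨Q, hQ, h⟩
    exact ⟨c • Q, A.EA.smul_mem c hQ, fun u v => by
      simp only [LinearMap.smul_apply, map_smul, h]⟩

variable {A}

/-- The forms given by the complexified endomorphisms are complex combinations of rational ones. -/
theorem mem_QE {Q : Module.End ℂ (ℂ ⊗[ℚ] A.H1)} (hQ : Q ∈ cx A.EA)
    (β : (ℂ ⊗[ℚ] A.H1) →ₗ[ℂ] (ℂ ⊗[ℚ] A.H1) →ₗ[ℂ] ℂ)
    (h : ∀ u v, β u v = LinearMap.BilinForm.baseChange ℂ A.om u (Q v)) :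
    β ∈ Submodule.span ℂ
      {γ : (ℂ ⊗[ℚ] A.H1) →ₗ[ℂ] (ℂ ⊗[ℚ] A.H1) →ₗ[ℂ] ℂ |
        ∃ q ∈ QE A, γ = LinearMap.BilinForm.baseChange ℂ q} := by
  have hβ : β = (LinearMap.BilinForm.baseChange ℂ A.om :
      (ℂ ⊗[ℚ] A.H1) →ₗ[ℂ] (ℂ ⊗[ℚ] A.H1) →ₗ[ℂ] ℂ).compl₂ Q := by
    refine LinearMap.ext fun u => LinearMap.ext fun v => ?_
    rw [h, LinearMap.compl₂_apply]
  rw [hβ]
  clear hβ h β
  induction hQ using Submodule.span_induction with
  | mem Q hQ =>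
    obtain ⟨P, hP, rfl⟩ := hQ
    refine Submodule.subset_span ⟨A.om.compl₂ P, ⟨P, hP, fun u v => rfl⟩, ?_⟩
    refine LinearMap.ext fun u => LinearMap.ext fun v => ?_
    rw [LinearMap.compl₂_apply]
    induction u using TensorProduct.induction_on with
    | zero => simp
    | add a b ha hb => simp only [map_add, LinearMap.add_apply, ha, hb]
    | tmul a u =>
      induction v using TensorProduct.induction_on with
      | zero => simp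
      | add a b ha hb => simp only [map_add, ha, hb]
      | tmul b v =>
        rw [LinearMap.baseChange_tmul, LinearMap.BilinForm.baseChange_tmul,
          LinearMap.BilinForm.baseChange_tmul]
        rfl
  | zero =>
    have h1 : (LinearMap.BilinForm.baseChange ℂ A.om :
      (ℂ ⊗[ℚ] A.H1) →ₗ[ℂ] (ℂ ⊗[ℚ] A.H1) →ₗ[ℂ] ℂ).compl₂ (0 : Module.End ℂ (ℂ ⊗[ℚ] A.H1)) = 0 := by
      refine LinearMap.ext fun u => LinearMap.ext fun v => ?_
      rw [LinearMap.compl₂_apply]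
      simp
    rw [h1]
    exact Submodule.zero_mem _
  | add a b _ _ ha hb =>
    have h1 : (LinearMap.BilinForm.baseChange ℂ A.om :
      (ℂ ⊗[ℚ] A.H1) →ₗ[ℂ] (ℂ ⊗[ℚ] A.H1) →ₗ[ℂ] ℂ).compl₂ (a + b) =
        (LinearMap.BilinForm.baseChange ℂ A.om :
      (ℂ ⊗[ℚ] A.H1) →ₗ[ℂ] (ℂ ⊗[ℚ] A.H1) →ₗ[ℂ] ℂ).compl₂ a + (LinearMap.BilinForm.baseChange ℂ A.om :
      (ℂ ⊗[ℚ] A.H1) →ₗ[ℂ] (ℂ ⊗[ℚ] A.H1) →ₗ[ℂ] ℂ).compl₂ b := by
      refine LinearMap.ext fun u => LinearMap.ext fun v => ?_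
      simp only [LinearMap.compl₂_apply, LinearMap.add_apply, map_add]
    rw [h1]
    exact Submodule.add_mem _ ha hb
  | smul c a _ ha =>
    have h1 : (LinearMap.BilinForm.baseChange ℂ A.om :
      (ℂ ⊗[ℚ] A.H1) →ₗ[ℂ] (ℂ ⊗[ℚ] A.H1) →ₗ[ℂ] ℂ).compl₂ (c • a) =
        c • (LinearMap.BilinForm.baseChange ℂ A.om :
      (ℂ ⊗[ℚ] A.H1) →ₗ[ℂ] (ℂ ⊗[ℚ] A.H1) →ₗ[ℂ] ℂ).compl₂ a := by
      refine LinearMap.ext fun u => LinearMap.ext fun v => ?_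
      simp only [LinearMap.compl₂_apply, LinearMap.smul_apply, map_smul]
    rw [h1]
    exact Submodule.smul_mem _ _ ha

/-- **Main theorem.** -/
theorem main_LC (hADB : S_ADB) (hU : S_U) (hAP1 : S_AP1) (hAP2 : S_AP2) {z : Module.End ℚ A.H1}
    {Sg : Finset ℝ} {N m : ℕ} (hL : HL A z Sg) (hF : HF A z N)
    (hm : 2 * m < N ∨ (Odd N ∧ m < N))
    {φ : MultilinearMap ℚ (fun _ : Fin m × Fin 2 => A.H1) ℚ}
    (hφ : IsDeRhamBettiForm QBar A.dR tau m φ) :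
    φ ∈ Submodule.span ℚ (PrB (Fin m × Fin 2) m (QE A : Set (A.H1 →ₗ[ℚ] A.H1 →ₗ[ℚ] ℚ))) := by
  obtain ⟨P, T, iT, iT', pl, e, h1, h2⟩ := hADB (ℂ ⊗[ℚ] A.H1) _ _ _ _ _ (hAP1 g A z N hF)
  have hkill : ∀ X ∈ cx (UU A z), Kil X (bcm (Ω := ℂ) A.bas φ) := by
    intro X hX
    have h3 := (kills_bcm_iff (b := A.bas) φ X).2 fun lam => by
      have h4 := cmp_of_ext (UU A z) hX lam
      have h5 := hU g A z Sg hL A.LA A.full_LA h4
      exact A.kills_of_mem hφ ((A.full_LA.der_le) h5)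
    exact h3
  have h3 := Pool.Agent.N75.LCBR.main Pool.Agent.N692.LCBAL.main Pool.Agent.N530.LC.main P N m T
    (Fin m × Fin 2) (ℂ ⊗[ℚ] A.H1) pl e (by simp [mul_comm]) hm (bcm (Ω := ℂ) A.bas φ)
    (fun b x hx => hkill _ ?_)
  · refine Pool.Agent.N441.LCDESC.main A.H1 _ A.bas (Fin m × Fin 2) m (QE A) φ
      (Submodule.span_mono ?_ h3)
    rintro ψ ⟨ε, c, hc, hψ⟩
    refine ⟨ε, c, fun i => ?_, hψ⟩
    obtain ⟨Q, hQ, hQ'⟩ := h2 _ (hc i)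
    exact mem_QE hQ _ hQ'
  · obtain ⟨h5, h6, h7⟩ := h1 b x
    exact hAP2 g A z N hF _ h5 h6 (h7 hx)

end Pool.Agent.N208.LC
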