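import Pool.Agent.N208.LC.Main

set_option autoImplicit false
set_option linter.unusedSectionVars false

/-!
# Powers of an abelian variety, and alternating forms
-/

open Module

noncomputable section

namespace Pool.Agent.N208.LC

open Pool.Agent.Y102 Pool.Agent.W516.DR Pool.Agent.H204R3.GP

section Alt

variable {W T : Type} [AddCommGroup W] [Module ℚ W] [AddCommGroup T] [Module ℂ T] {m : ℕ}

/-- The wedge product of bilinear forms. -/
def wedge (b : Fin m → W →ₗ[ℚ] W →ₗ[ℚ] ℚ) (v : Fin m × Fin 2 → W) : ℚ :=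
  ∑ σ : Equiv.Perm (Fin m × Fin 2),
    ((Equiv.Perm.sign σ : ℤ) : ℚ) * ∏ l, b l (v (σ (l, 0))) (v (σ (l, 1)))

/-- The alternating part of a bilinear form. -/
def alt (b : W →ₗ[ℚ] W →ₗ[ℚ] ℚ) : W →ₗ[ℚ] W →ₗ[ℚ] ℚ := (1 / 2 : ℚ) • (b - b.flip)

theorem alt_apply (b : W →ₗ[ℚ] W →ₗ[ℚ] ℚ) (u v : W) : alt b u v = 1 / 2 * (b u v - b v u) := rfl

theorem alt_self (b : W →ₗ[ℚ] W →ₗ[ℚ] ℚ) (u : W) : alt b u u = 0 := by
  rw [alt_apply, sub_self, mul_zero]

theorem alt_hodge {per : W →+ T} {b : W →ₗ[ℚ] W →ₗ[ℚ] ℚ} (h : IsHodgeBilinear per b) :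
    IsHodgeBilinear per (alt b) := by
  obtain ⟨E, h1, h2⟩ := h
  refine ⟨(1 / 2 : ℝ) • (E - E.flip), fun x y => ?_, fun z hz u v => ?_⟩
  · simp only [LinearMap.smul_apply, LinearMap.sub_apply, LinearMap.flip_apply, smul_eq_mul, h1,
      alt_apply]
    push_cast
    ring
  · simp only [LinearMap.smul_apply, LinearMap.sub_apply, LinearMap.flip_apply, smul_eq_mul, h2 z hz]

theorem wedge_swap (b : Fin m → W →ₗ[ℚ] W →ₗ[ℚ] ℚ) (l : Fin m) (v : Fin m × Fin 2 → W) :
    wedge (Function.update b l (b l).flip) v = -wedge b v := by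
  unfold wedge
  rw [← Finset.sum_neg_distrib]
  refine Fintype.sum_equiv (Equiv.mulRight (Equiv.swap (l, (0 : Fin 2)) (l, 1))) _ _ fun σ => ?_
  have hne : ((l, (0 : Fin 2)) : Fin m × Fin 2) ≠ (l, 1) := by simp
  rw [Equiv.coe_mulRight, Equiv.Perm.sign_mul, Equiv.Perm.sign_swap hne]
  have h1 : ∀ k, Function.update b l (b l).flip k (v (σ (k, 0))) (v (σ (k, 1))) =
      b k (v ((σ * Equiv.swap (l, (0 : Fin 2)) (l, 1)) (k, 0)))
        (v ((σ * Equiv.swap (l, (0 : Fin 2)) (l, 1)) (k, 1))) := by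
    intro k
    by_cases hk : k = l
    · subst hk
      rw [Function.update_self, LinearMap.flip_apply, Equiv.Perm.mul_apply, Equiv.Perm.mul_apply,
        Equiv.swap_apply_left, Equiv.swap_apply_right]
    · have e0 : Equiv.swap (l, (0 : Fin 2)) (l, 1) (k, 0) = (k, 0) :=
        Equiv.swap_apply_of_ne_of_ne (by simp [hk]) (by simp [hk])
      have e1 : Equiv.swap (l, (0 : Fin 2)) (l, 1) (k, 1) = (k, 1) :=
        Equiv.swap_apply_of_ne_of_ne (by simp [hk]) (by simp [hk])
      rw [Function.update_of_ne hk, Equiv.Perm.mul_apply, Equiv.Perm.mul_apply, e0, e1]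
  rw [Finset.prod_congr rfl fun k _ => h1 k]
  push_cast
  ring

theorem wedge_update_alt (b : Fin m → W →ₗ[ℚ] W →ₗ[ℚ] ℚ) (l : Fin m) (v : Fin m × Fin 2 → W) :
    wedge (Function.update b l (alt (b l))) v = wedge b v := by
  have h1 : wedge (Function.update b l (alt (b l))) v =
      1 / 2 * (wedge b v - wedge (Function.update b l (b l).flip) v) := by
    unfold wedge
    rw [← Finset.sum_sub_distrib, Finset.mul_sum]
    refine Finset.sum_congr rfl fun σ _ => ?_
    have h2 : ∀ x : W →ₗ[ℚ] W →ₗ[ℚ] ℚ,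
        ∏ k, Function.update b l x k (v (σ (k, 0))) (v (σ (k, 1))) =
          x (v (σ (l, 0))) (v (σ (l, 1))) *
            ∏ k ∈ Finset.univ.erase l, b k (v (σ (k, 0))) (v (σ (k, 1))) := by
      intro x
      rw [← Finset.mul_prod_erase Finset.univ _ (Finset.mem_univ l), Function.update_self]
      congr 1
      refine Finset.prod_congr rfl fun k hk => ?_
      rw [Function.update_of_ne (Finset.ne_of_mem_erase hk)]
    have h3 : ∏ k, b k (v (σ (k, 0))) (v (σ (k, 1))) =
        b l (v (σ (l, 0))) (v (σ (l, 1))) *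
          ∏ k ∈ Finset.univ.erase l, b k (v (σ (k, 0))) (v (σ (k, 1))) :=
      (Finset.mul_prod_erase Finset.univ _ (Finset.mem_univ l)).symm
    rw [h2, h2, h3, alt_apply, LinearMap.flip_apply]
    ring
  rw [h1, wedge_swap]
  ring

theorem wedge_alt (b : Fin m → W →ₗ[ℚ] W →ₗ[ℚ] ℚ) (v : Fin m × Fin 2 → W) :
    wedge (fun l => alt (b l)) v = wedge b v := by
  classical
  have key : ∀ s : Finset (Fin m), wedge (fun l => if l ∈ s then alt (b l) else b l) v = wedge b v := by
    intro s
    induction s using Finset.induction_on with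
    | empty => simp
    | insert a s ha ih =>
      rw [← ih, ← wedge_update_alt (fun l => if l ∈ s then alt (b l) else b l) a v]
      congr 1
      funext l
      by_cases hl : l = a
      · subst hl
        rw [Function.update_self, if_pos (Finset.mem_insert_self _ _), if_neg ha]
      · rw [Function.update_of_ne hl]
        simp [Finset.mem_insert, hl]
  have h := key Finset.univ
  simpa using h

/-- The alternating forms in the span of the products. -/
theorem alt_span {per : W →+ T} (φ : W [⋀^Fin m × Fin 2]→ₗ[ℚ] ℚ)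
    (h : (φ : MultilinearMap ℚ (fun _ : Fin m × Fin 2 => W) ℚ) ∈
      Submodule.span ℚ {ψ | IsProductOfHodgeBilinear per ψ}) :
    φ ∈ Submodule.span ℚ {ψ : W [⋀^Fin m × Fin 2]→ₗ[ℚ] ℚ |
      ∃ b : Fin m → W →ₗ[ℚ] W →ₗ[ℚ] ℚ, (∀ l, IsHodgeBilinear per (b l) ∧ ∀ u, b l u u = 0) ∧
        ∀ v, ψ v = wedge b v} := by
  have key : ∀ ψ ∈ Submodule.span ℚ {ψ | IsProductOfHodgeBilinear per ψ},
      MultilinearMap.alternatization ψ ∈ Submodule.span ℚ {ψ : W [⋀^Fin m × Fin 2]→ₗ[ℚ] ℚ |
      ∃ b : Fin m → W →ₗ[ℚ] W →ₗ[ℚ] ℚ, (∀ l, IsHodgeBilinear per (b l) ∧ ∀ u, b l u u = 0) ∧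
        ∀ v, ψ v = wedge b v} := by
    intro ψ hψ
    induction hψ using Submodule.span_induction with
    | mem ψ hψ =>
      obtain ⟨σ, B, hB, h⟩ := hψ
      have h1 : MultilinearMap.alternatization ψ =
          ((Equiv.Perm.sign σ : ℤ) : ℚ) •
            (((Equiv.Perm.sign σ : ℤ) : ℚ) • MultilinearMap.alternatization ψ) := by
        rw [smul_smul]
        have h2 : ((Equiv.Perm.sign σ : ℤ) : ℚ) * ((Equiv.Perm.sign σ : ℤ) : ℚ) = 1 := by
          rw [← Int.cast_mul, ← Units.val_mul, Int.units_mul_self, Units.val_one, Int.cast_one]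
        rw [h2, one_smul]
      rw [h1]
      refine Submodule.smul_mem _ _ (Submodule.subset_span
        ⟨fun l => alt (B l), fun l => ⟨alt_hodge (hB l), fun u => alt_self _ u⟩, fun v => ?_⟩)
      rw [wedge_alt, AlternatingMap.smul_apply, MultilinearMap.alternatization_apply, smul_eq_mul,
        Finset.mul_sum]
      unfold wedge
      refine Fintype.sum_equiv (Equiv.mulRight σ) _ _ fun τ => ?_
      rw [Equiv.coe_mulRight, Equiv.Perm.sign_mul, MultilinearMap.domDomCongr_apply, h,
        Units.smul_def, zsmul_eq_mul]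
      simp only [Equiv.Perm.mul_apply]
      push_cast
      ring
    | zero => rw [map_zero]; exact Submodule.zero_mem _
    | add a b _ _ ha hb => rw [map_add]; exact Submodule.add_mem _ ha hb
    | smul c a _ ha =>
      have h1 : MultilinearMap.alternatization (c • a) = c • MultilinearMap.alternatization a := by
        ext v
        rw [AlternatingMap.smul_apply, MultilinearMap.alternatization_apply,
          MultilinearMap.alternatization_apply, Finset.smul_sum]
        refine Finset.sum_congr rfl fun τ _ => ?_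
        rw [MultilinearMap.domDomCongr_apply, MultilinearMap.domDomCongr_apply,
          MultilinearMap.smul_apply, smul_comm]
      rw [h1]
      exact Submodule.smul_mem _ _ ha
  have h1 := key _ h
  rw [AlternatingMap.coe_alternatization] at h1
  have h2 : φ = ((Nat.factorial (Fintype.card (Fin m × Fin 2)) : ℚ)⁻¹) •
      (Nat.factorial (Fintype.card (Fin m × Fin 2)) • φ) := by
    rw [← Nat.cast_smul_eq_nsmul ℚ, smul_smul, inv_mul_cancel₀, one_smul]
    exact Nat.cast_ne_zero.2 (Nat.factorial_ne_zero _)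
  rw [h2]
  exact Submodule.smul_mem _ _ h1

end Alt

section Pow

variable {g : ℕ} (A : AbVar g)

/-- The inclusion of the rational homology of `A ^ n` in the tangent space. -/
def perP (n : ℕ) : (Fin n → A.H1) →+ (Fin n → Fin g → ℂ) where
  toFun v j := A.per (v j)
  map_zero' := by
    funext j
    exact map_zero _
  map_add' u v := by
    funext j
    exact map_add _ _ _

/-- The basis of the de Rham cohomology of `A ^ n`. -/
def dRP (n : ℕ) (i : (Fin g ⊕ Fin g) × Fin n) : (Fin n → A.H1) →ₗ[ℚ] ℂ :=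
  (A.dR i.1).comp (LinearMap.proj i.2)

variable {A}

theorem main_pow {m n : ℕ}
    (hyp : ∀ φ : MultilinearMap ℚ (fun _ : Fin m × Fin 2 => A.H1) ℚ,
      IsDeRhamBettiForm QBar A.dR tau m φ →
      φ ∈ Submodule.span ℚ {ψ | IsProductOfHodgeBilinear (A.per : A.H1 →+ (Fin g → ℂ)) ψ})
    (φ : MultilinearMap ℚ (fun _ : Fin m × Fin 2 => Fin n → A.H1) ℚ)
    (hφ : IsDeRhamBettiForm QBar (dRP A n) tau m φ) :
    φ ∈ Submodule.span ℚ {ψ | IsProductOfHodgeBilinear (perP A n) ψ} := by
  classical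
  -- the restrictions
  let φc : (Fin m × Fin 2 → Fin n) → MultilinearMap ℚ (fun _ : Fin m × Fin 2 => A.H1) ℚ :=
    fun c => φ.compLinearMap fun l => LinearMap.single ℚ (fun _ : Fin n => A.H1) (c l)
  have hc : ∀ c, IsDeRhamBettiForm QBar A.dR tau m (φc c) := by
    intro c
    obtain ⟨a, ha⟩ := hφ
    refine ⟨fun J => a fun l => (J l, c l), fun w => ?_⟩
    have h1 := ha fun l => LinearMap.single ℚ (fun _ : Fin n => A.H1) (c l) (w l)
    rw [show (φc c) w = φ fun l => LinearMap.single ℚ (fun _ : Fin n => A.H1) (c l) (w l) from rfl, h1]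
    rw [← (Equiv.arrowProdEquivProdArrow (Fin m × Fin 2) (fun _ => Fin g ⊕ Fin g)
      (fun _ => Fin n)).symm.sum_comp, Fintype.sum_prod_type]
    refine Finset.sum_congr rfl fun J _ => ?_
    rw [Finset.sum_eq_single c]
    · congr 1
      refine Finset.prod_congr rfl fun l _ => ?_
      change A.dR (J l) ((LinearMap.single ℚ (fun _ : Fin n => A.H1) (c l) (w l)) (c l)) = _
      rw [LinearMap.single_apply, Pi.single_eq_same]
    · intro c' _ hne
      obtain ⟨l, hl⟩ := Function.ne_iff.1 hne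
      have h2 : ∏ l, dRP A n ((Equiv.arrowProdEquivProdArrow (Fin m × Fin 2)
          (fun _ => Fin g ⊕ Fin g) (fun _ => Fin n)).symm (J, c') l)
            (LinearMap.single ℚ (fun _ : Fin n => A.H1) (c l) (w l)) = 0 := by
        refine Finset.prod_eq_zero (Finset.mem_univ l) ?_
        change A.dR (J l) ((LinearMap.single ℚ (fun _ : Fin n => A.H1) (c l) (w l)) (c' l)) = 0
        rw [LinearMap.single_apply, Pi.single_eq_of_ne hl, map_zero]
      rw [h2, mul_zero]
    · intro h
      exact absurd (Finset.mem_univ c) h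
  have hsum : φ = ∑ c, (φc c).compLinearMap fun l =>
      (LinearMap.proj (c l) : (Fin n → A.H1) →ₗ[ℚ] A.H1) := by
    refine MultilinearMap.ext fun v => ?_
    rw [MultilinearMap.sum_apply]
    have h1 : v = fun l => ∑ j, LinearMap.single ℚ (fun _ : Fin n => A.H1) j (v l j) := by
      funext l
      simp only [LinearMap.single_apply]
      exact (Finset.univ_sum_single (v l)).symm
    conv_lhs => rw [h1]
    rw [MultilinearMap.map_sum]
    rfl
  rw [hsum]
  refine Submodule.sum_mem _ fun c _ => ?_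
  have h1 := hyp (φc c) (hc c)
  generalize φc c = ψ at h1
  induction h1 using Submodule.span_induction with
  | mem ψ hψ =>
    obtain ⟨σ, B, hB, h⟩ := hψ
    refine Submodule.subset_span ⟨σ, fun l => (B l).compl₁₂ (LinearMap.proj (c (σ (l, 0))))
      (LinearMap.proj (c (σ (l, 1)))), fun l => ?_, fun v => ?_⟩
    · obtain ⟨E, h1, h2⟩ := hB l
      refine ⟨E.compl₁₂ (LinearMap.proj (c (σ (l, 0)))) (LinearMap.proj (c (σ (l, 1)))),
        fun x y => ?_, fun z hz u v => ?_⟩
      · exact h1 _ _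
      · exact h2 z hz _ _
    · exact h _
  | zero =>
    have h2 : (0 : MultilinearMap ℚ (fun _ : Fin m × Fin 2 => A.H1) ℚ).compLinearMap
        (fun l => (LinearMap.proj (c l) : (Fin n → A.H1) →ₗ[ℚ] A.H1)) = 0 := rfl
    rw [h2]
    exact Submodule.zero_mem _
  | add a b _ _ ha hb =>
    have h2 : (a + b).compLinearMap
        (fun l => (LinearMap.proj (c l) : (Fin n → A.H1) →ₗ[ℚ] A.H1)) =
        a.compLinearMap (fun l => (LinearMap.proj (c l) : (Fin n → A.H1) →ₗ[ℚ] A.H1)) +
        b.compLinearMap (fun l => (LinearMap.proj (c l) : (Fin n → A.H1) →ₗ[ℚ] A.H1)) := rfl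
    rw [h2]
    exact Submodule.add_mem _ ha hb
  | smul q a _ ha =>
    have h2 : (q • a).compLinearMap
        (fun l => (LinearMap.proj (c l) : (Fin n → A.H1) →ₗ[ℚ] A.H1)) =
        q • a.compLinearMap (fun l => (LinearMap.proj (c l) : (Fin n → A.H1) →ₗ[ℚ] A.H1)) := rfl
    rw [h2]
    exact Submodule.smul_mem _ _ ha

end Pow

end Pool.Agent.N208.LC
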