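import Pool.Agent.N208.LC.Stm
import Pool.Agent.N208.BT.PDiv

set_option autoImplicit false

/-!
# de Rham-Betti classes of low degree on abelian varieties of unitary type: statements
-/

open Module Matrix TensorProduct

noncomputable section

namespace Pool.Agent.N208.LC

open Pool.Agent.Y102 Pool.Agent.W516.DR Pool.Agent.H204R3.GP Pool.Agent.W516.KC
  Pool.Agent.H204R3.SP Pool.Agent.TH119.MX Pool.Agent.R917 Pool.Agent.N208.AM Pool.Agent.N208.AD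
  Pool.Agent.N208.BT

/-- **LC/DESC.** Descent of products of bilinear forms from the complex numbers to the rational
numbers. -/
def S_DESC : Prop := ∀ (W : Type) [AddCommGroup W] [Module ℚ W] [FiniteDimensional ℚ W]
  (ν : Type) [Fintype ν] [DecidableEq ν] (β : Basis ν ℚ W) (ι : Type) [Fintype ι] [DecidableEq ι]
  (k : ℕ) (Q : Submodule ℚ (W →ₗ[ℚ] W →ₗ[ℚ] ℚ)) (φ : MultilinearMap ℚ (fun _ : ι => W) ℚ),
  bcm (Ω := ℂ) β φ ∈ Submodule.span ℂ (PrB ι k ((Submodule.span ℂ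
    {γ : (ℂ ⊗[ℚ] W) →ₗ[ℂ] (ℂ ⊗[ℚ] W) →ₗ[ℂ] ℂ | ∃ q ∈ Q, γ = LinearMap.BilinForm.baseChange ℂ q} :
      Submodule ℂ ((ℂ ⊗[ℚ] W) →ₗ[ℂ] (ℂ ⊗[ℚ] W) →ₗ[ℂ] ℂ)) :
        Set ((ℂ ⊗[ℚ] W) →ₗ[ℂ] (ℂ ⊗[ℚ] W) →ₗ[ℂ] ℂ))) →
  φ ∈ Submodule.span ℚ (PrB ι k (Q : Set (W →ₗ[ℚ] W →ₗ[ℚ] ℚ)))

variable {g : ℕ} (A : AbVar g)

/-- The Lie algebra of the special unitary group: the skew elements of the commutant of the
endomorphism algebra whose traces over the centre are zero. -/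
def UU (z : Module.End ℚ A.H1) : Submodule ℚ (Module.End ℚ A.H1) where
  carrier := {X | X ∈ CB A ∧ (∀ u v, A.om (X u) v + A.om u (X v) = 0) ∧
    ∀ q : Polynomial ℚ, LinearMap.trace ℚ A.H1 (X * Polynomial.aeval z q) = 0}
  zero_mem' := ⟨(CB A).zero_mem, fun u v => by simp, fun q => by rw [zero_mul, map_zero]⟩
  add_mem' := by
    rintro X Y ⟨h1, h2, h3⟩ ⟨h1', h2', h3'⟩
    refine ⟨(CB A).add_mem h1 h1', fun u v => ?_, fun q => by rw [add_mul, map_add, h3, h3', add_zero]⟩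
    have e1 := h2 u v
    have e2 := h2' u v
    simp only [LinearMap.add_apply, map_add]
    linear_combination e1 + e2
  smul_mem' := by
    rintro c X ⟨h1, h2, h3⟩
    refine ⟨(CB A).smul_mem c h1, fun u v => ?_, fun q => by
      rw [smul_mul_assoc, map_smul, h3, smul_zero]⟩
    have e1 := h2 u v
    simp only [LinearMap.smul_apply, map_smul, smul_eq_mul]
    linear_combination c * e1

/-- `ℚ[z]` is a field, and all indefinite places are in the (nonempty) set `Sg`. -/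
structure HL (z : Module.End ℚ A.H1) (Sg : Finset ℝ) : Prop where
  hg : HG A z Sg
  field : ∀ q : Polynomial ℚ, Polynomial.aeval z q ≠ 0 →
    Function.Injective (Polynomial.aeval z q)
  ne : Sg.Nonempty
  dfn : ∀ b : ℝ, (∃ x, x ≠ 0 ∧ Eig A z b x) → (∃ x, x ≠ 0 ∧ Eig A z (-b) x) → b ∈ Sg ∨ -b ∈ Sg

/-- **LC/CPT.** Elements which are supported at one place. -/
def S_CPT : Prop := ∀ (g : ℕ) (A : AbVar g) (z : Module.End ℚ A.H1) (Sg : Finset ℝ), HL A z Sg →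
  ∀ al ∈ Sg, ∀ (N : ℕ) (sg : Fin N → ℝ) (φ : VN N →ₗ[ℝ] (Fin g → ℂ)), WN A z al N sg φ →
  ∀ 𝔮 : Submodule ℚ (Module.End ℚ A.H1), A.Full 𝔮 → ∀ m : MN N, IsSks sg m → m.trace = 0 →
  ∃ y ∈ spE A (der 𝔮 : Set (Module.End ℚ A.H1)), (∀ x, y (φ x) = φ (m *ᵥ x)) ∧
    ∀ be : ℝ, be ^ 2 ≠ al ^ 2 → ∀ x ∈ V0 A z be, y x = 0

/-- **LC/U.** The derived algebra of a full subalgebra is the whole special unitary Lie algebra. -/
def S_U : Prop := ∀ (g : ℕ) (A : AbVar g) (z : Module.End ℚ A.H1) (Sg : Finset ℝ), HL A z Sg →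
  ∀ 𝔮 : Submodule ℚ (Module.End ℚ A.H1), A.Full 𝔮 → UU A z ≤ der 𝔮

/-- The centre of the endomorphism algebra is the field `ℚ[z]`, `z` is skew, and the commutant has
dimension `N ^ 2` over it. -/
structure HF (z : Module.End ℚ A.H1) (N : ℕ) : Prop where
  mem : z ∈ A.EA
  cen : ∀ P ∈ A.EA, z * P = P * z
  skew : IsSkew A.om z
  ne : z ≠ 0
  field : ∀ q : Polynomial ℚ, Polynomial.aeval z q ≠ 0 →
    Function.Injective (Polynomial.aeval z q)
  gen : ∀ P ∈ A.EA, (∀ Q ∈ A.EA, P * Q = Q * P) → ∃ q : Polynomial ℚ, P = Polynomial.aeval z q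
  deg : finrank ℚ (CB A) = N ^ 2 * finrank ℚ (Algebra.adjoin ℚ {z})

/-- **LC/AP1.** The complexified algebras. -/
def S_AP1 : Prop := ∀ (g : ℕ) (A : AbVar g) (z : Module.End ℚ A.H1) (N : ℕ), HF A z N →
  Alg2 (ℂ ⊗[ℚ] A.H1) (LinearMap.BilinForm.baseChange ℂ A.om) (cx A.EA) (cx (CB A))
    (z.baseChange ℂ) N

/-- **LC/AP2.** The complexification of the special unitary Lie algebra. -/
def S_AP2 : Prop := ∀ (g : ℕ) (A : AbVar g) (z : Module.End ℚ A.H1) (N : ℕ), HF A z N →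
  ∀ X ∈ cx (CB A), (∀ u v, LinearMap.BilinForm.baseChange ℂ A.om (X u) v +
    LinearMap.BilinForm.baseChange ℂ A.om u (X v) = 0) →
  (∀ q : Polynomial ℂ, LinearMap.trace ℂ (ℂ ⊗[ℚ] A.H1)
    (X * Polynomial.aeval (z.baseChange ℂ) q) = 0) → X ∈ cx (UU A z)

end Pool.Agent.N208.LC
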